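import Pool.Agent.Lib.MP_28303a_al.NT.EX.Defs
import Pool.Agent.Lib.MP_28303a_al.NT.H80.Perf

/-! # Row FAD: the invariant is additive -/

set_option autoImplicit false
set_option linter.unusedSectionVars false
set_option linter.unusedVariables false

namespace Pool.Agent.NegK.NT.EX78

universe u

open CategoryTheory Limits Opposite Pretriangulated
open Pool.Agent.NegK.TW Pool.Agent.NegK.NT.ER Pool.Agent.NegK.NT.EX Pool.Agent.NegK.NT.EX91

section

variable {Γ : Type u} [Group Γ] {k : Type u} [Ring k] {G : Type u} [AddCommGroup G]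

/-- Additive functions and additive functors. -/
theorem addF_comp {B B' : Type u} [MulAction Γ B] [MulAction Γ B'] {P : Pre Γ B} {Q : Pre Γ B'}
    {F : KK k Q → G} (hF : AddF F) (H : Loc k P ⥤ Loc k Q) [H.Additive] (hH : KeepFin H) :
    AddF (fun Y : KK k P => F ((hk H).obj Y)) := by
  intro Δ hΔ h1 h2 h3
  exact hF _ ((hk H).map_distinguished _ hΔ) (per_hk H hH h1) (per_hk H hH h2) (per_hk H hH h3)

theorem addF_sub {B : Type u} [MulAction Γ B] {P : Pre Γ B} {F F' : KK k P → G} (hF : AddF F)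
    (hF' : AddF F') : AddF (fun Y => F Y - F' Y) := by
  intro Δ hΔ h1 h2 h3
  show F _ - F' _ = F _ - F' _ + (F _ - F' _)
  rw [hF Δ hΔ h1 h2 h3, hF' Δ hΔ h1 h2 h3]
  abel

theorem keep_gL {T : Sys Γ} {j : Fin T.m} {Z : Type u} [MulAction Γ Z] {S : Finset (Fin T.m)}
    (hj : j ∈ S) (l : Z → T.B j) (hl : ∀ (g : Γ) (z : Z), l (g • z) = g • l z)
    (hf : ∀ c : T.B j, {z | l z ≤ c}.Finite) : KeepFin ((gL hj l hl).F (k := k)) where
  fin A hA := by
    have h1 : ∀ i : A.ι, Finite {z : Z // l z ≤ A.loc i j} := fun i => (hf (A.loc i j)).to_subtype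
    exact inferInstanceAs (Finite (Σ i : A.ι, {z : Z // l z ≤ A.loc i j}))
  emp A hA := ⟨fun p => hA.false p.1⟩

theorem fin_vt {T : Sys Γ} {D : T.Tr} {j : Fin T.m} [MulAction Γ (D.V j)]
    [MulAction Γ (D.E j)] (K : Mk D j) (c : T.B j) : {z | D.vt j z ≤ c}.Finite :=
  (K.fin j c).preimage K.vt_inj.injOn

theorem fin_ed {T : Sys Γ} {D : T.Tr} {j : Fin T.m} [MulAction Γ (D.V j)]
    [MulAction Γ (D.E j)] (K : Mk D j) (c : T.B j) : {z | D.ed j z ≤ c}.Finite :=
  (K.fin j c).preimage K.ed_inj.injOn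

end

/-- **Row FAD.** -/
theorem fadS : FadStatement.{u} := by
  intro Γ _ T D j _ _ K k _ G _ eu heu
  refine ⟨fun S hj => ?_, fun X hX => rfl⟩
  have h1 := addF_comp (addF_comp heu (Loc.push (wm (D.s j) K.s_smul)) (keepFin_push _))
    (gL hj (D.ed j) K.ed_smul).F (keep_gL hj (D.ed j) K.ed_smul (fin_ed K))
  have h2 := addF_comp heu (gL hj (D.vt j) K.vt_smul).F (keep_gL hj (D.vt j) K.vt_smul (fin_vt K))
  exact addF_sub h2 h1

end Pool.Agent.NegK.NT.EX78
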