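import Pool.Agent.Lib.MP_28303a_al.NT.ER.Defs

/-! # Direct images of the functors of located modules -/

set_option autoImplicit false
set_option linter.unusedSectionVars false
set_option linter.unusedVariables false

namespace Pool.Agent.NegK.NT.EX78

universe u

open CategoryTheory Limits Opposite
open Pool.Agent.NegK.TW Pool.Agent.NegK.NT.ER

section

variable {k : Type u} [Ring k] {Γ : Type u} [Group Γ] {B C : Type u} [MulAction Γ B]
  [MulAction Γ C] {P : Pre Γ B} {Q : Pre Γ C}

/-- Induction on the elements which live on `U`. -/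
theorem evS_ind (A : Loc k P) (U : B) {p : A.F → Prop} (h0 : p 0)
    (hadd : ∀ x y, p x → p y → p (x + y))
    (hs : ∀ i g r, P.le U (g • A.loc i) →
      p (Finsupp.single i (MonoidAlgebra.single g r : MonoidAlgebra k Γ))) :
    ∀ x ∈ A.evS U, p x := by
  classical
  intro x hx
  have h1 : x = x.sum fun i a => a.coeff.sum fun g r =>
      Finsupp.single i (MonoidAlgebra.single g r : MonoidAlgebra k Γ) := by
    conv_lhs => rw [← x.sum_single]
    refine Finsupp.sum_congr fun i _ => ?_
    have h2 : (x i) = (x i).coeff.sum fun g r =>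
      (MonoidAlgebra.single g r : MonoidAlgebra k Γ) :=
      (MonoidAlgebra.sum_coeff_single (x i)).symm
    conv_lhs => rw [h2]
    rw [Finsupp.sum, Finsupp.single_finsetSum, Finsupp.sum]
  rw [h1, Finsupp.sum]
  refine Finset.sum_induction _ p hadd h0 fun i _ => ?_
  rw [Finsupp.sum]
  refine Finset.sum_induction _ p hadd h0 fun g hg => ?_
  exact hs i g _ (hx i g (Finsupp.mem_support_iff.1 hg))

theorem single_mem' (A : Loc k P) {U : B} (i : A.ι) (g : Γ) (r : k) (h : P.le U (g • A.loc i)) :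
    (Finsupp.single i (MonoidAlgebra.single g r : MonoidAlgebra k Γ)) ∈ A.evS U := by
  classical
  intro i' g' hg
  rw [Finsupp.single_apply] at hg
  split_ifs at hg with h1
  · subst h1
    rw [MonoidAlgebra.coeff_single, Finsupp.single_apply] at hg
    split_ifs at hg with h2
    · rwa [← h2]
    · exact absurd rfl hg
  · exact absurd rfl hg

variable (q : Dfib Q P) (A : Loc k Q)

theorem evS_fb {U : B} (c : Fb q U) {x : A.F} (hx : x ∈ A.evS c.1) :
    x ∈ (Loc.tr q.toMono A).evS U := by
  intro i g hg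
  have h := q.le (hx i g hg)
  rw [q.smul, c.2] at h
  exact h

open Classical in
/-- The sum map. -/
noncomputable def tot (U : B) :
    (DirectSum (Fb q U) fun c => (Loc.ev.obj A : Fn k Q).obj (op (Bx.of c.1))) →ₗ[k]
      (Loc.tr q.toMono A).evS U :=
  DirectSum.toModule k (Fb q U) _ fun c =>
    { toFun := fun x => ⟨x.1, evS_fb q A c x.2⟩
      map_add' := fun x y => rfl
      map_smul' := fun r x => rfl }

theorem tot_yl {U : B} (c : Fb q U) (x : (Loc.ev.obj A : Fn k Q).obj (op (Bx.of c.1))) :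
    tot q A U (yl q (Loc.ev.obj A) c x) = ⟨x.1, evS_fb q A c x.2⟩ := by
  classical
  rw [tot]
  erw [DirectSum.toModule_lof]
  rfl

open Classical in
theorem tot_coeff {U : B} (i : A.ι) (g : Γ) (c : Fb q U) (hc : Q.le c.1 (g • A.loc i))
    (y : DirectSum (Fb q U) fun c => (Loc.ev.obj A : Fn k Q).obj (op (Bx.of c.1))) :
    ((tot q A U y).1 i).coeff g = ((y c).1 i).coeff g := by
  induction y using DirectSum.induction_on with
  | zero =>
    rw [map_zero, DirectSum.zero_apply]
    rfl
  | add x y hx hy =>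
    rw [map_add, DirectSum.add_apply]
    have h1 : ((tot q A U x + tot q A U y).1 i).coeff g =
        ((tot q A U x).1 i).coeff g + ((tot q A U y).1 i).coeff g := rfl
    have h2 : ((x c + y c).1 i).coeff g = ((x c).1 i).coeff g + ((y c).1 i).coeff g := rfl
    rw [h1, h2, hx, hy]
  | of d x =>
    have h1 : tot q A U ((DirectSum.of
        (fun c : Fb q U => ((Loc.ev.obj A : Fn k Q).obj (op (Bx.of c.1)) : Type u)) d) x) =
        ⟨x.1, evS_fb q A d x.2⟩ := tot_yl q A d x
    rw [h1]
    by_cases hd : d = c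
    · subst hd
      rw [DirectSum.of_eq_same]
    · rw [DirectSum.of_eq_of_ne _ _ _ (Ne.symm hd)]
      change (x.1 i).coeff g = 0
      by_contra hx
      have h2 : Q.le d.1 (g • A.loc i) := x.2 i g hx
      refine hd (Subtype.ext ?_)
      rw [q.uniq h2, q.uniq hc, d.2, c.2]

theorem tot_inj (U : B) : Function.Injective (tot q A U) := by
  classical
  rw [injective_iff_map_eq_zero]
  intro y hy
  refine DFinsupp.ext fun c => Subtype.ext (Finsupp.ext fun i => ?_)
  ext g
  by_contra hc
  have h1 : Q.le c.1 (g • A.loc i) := (y c).2 i g (fun h => hc h)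
  have h2 := tot_coeff q A i g c h1 y
  rw [hy] at h2
  exact hc h2.symm

theorem tot_surj (U : B) : Function.Surjective (tot q A U) := by
  classical
  rintro ⟨x, hx⟩
  obtain ⟨y, hy⟩ := evS_ind (Loc.tr q.toMono A) U (p := fun x => ∃ y, (tot q A U y).1 = x)
    ⟨0, by rw [map_zero]; rfl⟩ (by
      rintro x y ⟨a, rfl⟩ ⟨b, rfl⟩
      exact ⟨a + b, by rw [map_add]; rfl⟩) (by
      intro i g r hi
      have h1 : P.le U (q.φ (g • A.loc i)) := by
        rw [q.smul]
        exact hi
      let c : Fb q U := ⟨q.lf U (g • A.loc i), q.φ_lf h1⟩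
      let x0 : (Loc.ev.obj A : Fn k Q).obj (op (Bx.of c.1)) :=
        (⟨_, single_mem' A (U := c.1) i g r (q.lf_le h1)⟩ : A.evS c.1)
      exact ⟨yl q (Loc.ev.obj A) c x0, congrArg Subtype.val (tot_yl q A c x0)⟩) x hx
  exact ⟨y, Subtype.ext hy⟩

/-- The isomorphism on one box. -/
noncomputable def totE (U : B) :
    (DirectSum (Fb q U) fun c => (Loc.ev.obj A : Fn k Q).obj (op (Bx.of c.1))) ≃ₗ[k]
      (Loc.tr q.toMono A).evS U :=
  LinearEquiv.ofBijective (tot q A U) ⟨tot_inj q A U, tot_surj q A U⟩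

theorem tot_nat {U V : Bx P} (f : U ⟶ V)
    (y : DirectSum (Fb q V.pt) fun c => (Loc.ev.obj A : Fn k Q).obj (op (Bx.of c.1))) :
    tot q A U.pt (ym q (Loc.ev.obj A) f y) =
      ((Loc.ev.obj (Loc.tr q.toMono A) : Fn k P).map f.op).hom (tot q A V.pt y) := by
  let ev' : (Loc.tr q.toMono A).evS V.pt →ₗ[k] (Loc.tr q.toMono A).evS U.pt :=
    ((Loc.ev.obj (Loc.tr q.toMono A) : Fn k P).map f.op).hom
  have h : tot q A U.pt ∘ₗ ym q (Loc.ev.obj A : Fn k Q) f = ev' ∘ₗ tot q A V.pt := by
    refine y_ext (k := k) (Y := (Loc.tr q.toMono A).evS U.pt) q (Loc.ev.obj A : Fn k Q)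
      fun c x => ?_
    show tot q A U.pt (ym q (Loc.ev.obj A) f (yl q (Loc.ev.obj A) c x)) =
      ev' (tot q A V.pt (yl q (Loc.ev.obj A) c x))
    rw [ym_yl, tot_yl, tot_yl]
    rfl
  exact LinearMap.congr_fun h y

/-- The isomorphism for one located module. -/
noncomputable def natI : (yy q).obj (Loc.ev.obj A : Fn k Q) ≅
    (Loc.ev.obj ((Loc.push (k := k) q.toMono).obj A) : Fn k P) :=
  NatIso.ofComponents (fun U => (totE q A U.unop.pt).toModuleIso) (by
    intro U V f
    refine ModuleCat.hom_ext (LinearMap.ext fun y => ?_)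
    exact tot_nat q A f.unop y)

/-- **Row NAT.** -/
noncomputable def nat (k : Type u) [Ring k] (q : Dfib Q P) :
    (Loc.ev ⋙ yy q : Loc k Q ⥤ Fn k P) ≅ Loc.push q.toMono ⋙ Loc.ev :=
  NatIso.ofComponents (fun A => natI q A) (by
    intro A A' f
    refine NatTrans.ext (funext fun U => ModuleCat.hom_ext ?_)
    refine y_ext (k := k) q (Loc.ev.obj A : Fn k Q) fun c x => ?_
    show tot q A' U.unop.pt (yL q (Loc.ev.map f) U.unop.pt (yl q (Loc.ev.obj A) c x)) =
      ((Loc.ev.map ((Loc.push q.toMono).map f)).app U).hom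
        (tot q A U.unop.pt (yl q (Loc.ev.obj A) c x))
    rw [yL_yl, tot_yl, tot_yl]
    rfl)

end

end Pool.Agent.NegK.NT.EX78
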