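import Pool.Agent.Lib.MP_28303a_al.NT.EX.Crs
import Pool.Agent.Lib.MP_28303a_al.NT.EX78.Nat

/-! # Row EVC: correspondences and pullbacks of functors -/

set_option autoImplicit false
set_option linter.unusedSectionVars false
set_option linter.unusedVariables false

namespace Pool.Agent.NegK.NT.EX78

universe u

open CategoryTheory Limits Opposite
open Pool.Agent.NegK.TW Pool.Agent.NegK.NT.ER Pool.Agent.NegK.NT.EX

section

variable {Γ : Type u} [Group Γ] {B C Z : Type u} [MulAction Γ B] [MulAction Γ C] [MulAction Γ Z]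
  {k : Type u} [Ring k] {P : Pre Γ B} {Q : Pre Γ C}

/-- The correspondence `c` is adjoint to the map `m`: above `m q` are exactly the `b` which have
the element `ζ q` with a location above `q`. -/
structure Adj (c : Crs P Z Q) (m : Loc.Mono Q P) (ζ : C → Z) : Prop where
  S : ∀ {q b}, P.le (m.φ q) b → c.S b (ζ q)
  le : ∀ {q b}, P.le (m.φ q) b → Q.le q (c.ℓ b (ζ q))
  uniq : ∀ {q b z}, c.S b z → Q.le q (c.ℓ b z) → z = ζ q
  inv : ∀ {q b}, c.S b (ζ q) → Q.le q (c.ℓ b (ζ q)) → P.le (m.φ q) b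

variable (c : Crs P Z Q)

/-- The projection. -/
noncomputable def pr (A : Loc k P) : (c.ob A).F →ₗ[MonoidAlgebra k Γ] A.F :=
  Finsupp.linearCombination _ fun p => Finsupp.single p.1 1

theorem pr_single (A : Loc k P) (p : (c.ob A).ι) (a : MonoidAlgebra k Γ) :
    pr c A (Finsupp.single p a) = Finsupp.single p.1 a := by
  rw [pr, Finsupp.linearCombination_single, Finsupp.smul_single, smul_eq_mul, mul_one]

theorem pr_smul (A : Loc k P) (r : k) (x : (c.ob A).F) : pr c A (r • x) = r • pr c A x := by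
  rw [Loc.smul_one_single', map_smul, ← Loc.smul_one_single']

theorem tz_smul' (A : Loc k P) (z : Z) (r : k) (x : A.F) :
    c.tz A z (r • x) = r • c.tz A z x := by
  rw [Loc.smul_one_single', c.tz_smul, ← Loc.smul_one_single', inv_one, one_smul]

variable {c} {m : Loc.Mono Q P} {ζ : C → Z} (h : Adj c m ζ)
include h

/-- What lives on `q` is in the component `ζ q`. -/
theorem Adj.key {q : C} {A : Loc k P} {p : (c.ob A).ι} {g : Γ}
    (hp : Q.le q (g • (c.ob A).loc p)) : g • p.2.1 = ζ q ∧ P.le (m.φ q) (g • A.loc p.1) := by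
  have h1 : c.S (g • A.loc p.1) (g • p.2.1) := c.smul g p.2.2
  have h2 : Q.le q (c.ℓ (g • A.loc p.1) (g • p.2.1)) := by
    rw [c.ℓ_smul]
    exact hp
  have h3 := h.uniq h1 h2
  rw [h3] at h1 h2
  exact ⟨h3, h.inv h1 h2⟩

theorem Adj.key' {q : C} {A : Loc k P} {i : A.ι} {g : Γ} (hi : P.le (m.φ q) (g • A.loc i)) :
    c.S (A.loc i) (g⁻¹ • ζ q) ∧ Q.le q (g • c.ℓ (A.loc i) (g⁻¹ • ζ q)) := by
  have h1 := c.smul g⁻¹ (h.S hi)
  rw [inv_smul_smul] at h1
  refine ⟨h1, ?_⟩
  rw [← c.ℓ_smul, smul_inv_smul]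
  exact h.le hi

theorem Adj.pr_mem {q : C} {A : Loc k P} {y : (c.ob A).F} (hy : y ∈ (c.ob A).evS q) :
    pr c A y ∈ A.evS (m.φ q) := by
  refine evS_ind (c.ob A) q (p := fun y => pr c A y ∈ A.evS (m.φ q)) ?_ ?_ ?_ y hy
  · rw [map_zero]
    exact Submodule.zero_mem _
  · intro x y hx hy
    rw [map_add]
    exact Submodule.add_mem _ hx hy
  · intro p g r hp
    rw [pr_single]
    exact single_mem' A p.1 g r (h.key hp).2

theorem Adj.tz_mem {q : C} {A : Loc k P} {x : A.F} (hx : x ∈ A.evS (m.φ q)) :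
    c.tz A (ζ q) x ∈ (c.ob A).evS q := by
  refine evS_ind A (m.φ q) (p := fun x => c.tz A (ζ q) x ∈ (c.ob A).evS q) ?_ ?_ ?_ x hx
  · rw [map_zero]
    exact Submodule.zero_mem _
  · intro x y hx hy
    rw [map_add]
    exact Submodule.add_mem _ hx hy
  · intro i g r hi
    rw [c.tz_pos A (h.key' hi).1]
    exact single_mem' (c.ob A) _ g r (h.key' hi).2

theorem Adj.pr_tz {q : C} {A : Loc k P} {x : A.F} (hx : x ∈ A.evS (m.φ q)) :
    pr c A (c.tz A (ζ q) x) = x := by
  refine evS_ind A (m.φ q) (p := fun x => pr c A (c.tz A (ζ q) x) = x) ?_ ?_ ?_ x hx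
  · rw [map_zero, map_zero]
  · intro x y hx hy
    rw [map_add, map_add, hx, hy]
  · intro i g r hi
    rw [c.tz_pos A (h.key' hi).1, pr_single]

theorem Adj.tz_pr {q : C} {A : Loc k P} {y : (c.ob A).F} (hy : y ∈ (c.ob A).evS q) :
    c.tz A (ζ q) (pr c A y) = y := by
  refine evS_ind (c.ob A) q (p := fun y => c.tz A (ζ q) (pr c A y) = y) ?_ ?_ ?_ y hy
  · rw [map_zero, map_zero]
  · intro x y hx hy
    rw [map_add, map_add, hx, hy]
  · intro p g r hp
    obtain ⟨h1, h2⟩ := h.key hp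
    rw [pr_single, c.tz_pos A (h.key' h2).1]
    congr 1
    have h3 : g⁻¹ • ζ q = p.2.1 := by rw [← h1, inv_smul_smul]
    exact Sigma.ext rfl (heq_of_eq (Subtype.ext h3))

/-- The isomorphism on one location. -/
noncomputable def Adj.eqv (A : Loc k P) (q : C) : (c.ob A).evS q ≃ₗ[k] A.evS (m.φ q) where
  toFun y := ⟨pr c A y.1, h.pr_mem y.2⟩
  map_add' x y := Subtype.ext (map_add _ _ _)
  map_smul' r x := Subtype.ext (pr_smul c A r x.1)
  invFun x := ⟨c.tz A (ζ q) x.1, h.tz_mem x.2⟩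
  left_inv y := Subtype.ext (h.tz_pr y.2)
  right_inv x := Subtype.ext (h.pr_tz x.2)

/-- The projection is natural. -/
theorem Adj.pr_nat {A A' : Loc k P} (f : A ⟶ A') {q : C} {y : (c.ob A).F}
    (hy : y ∈ (c.ob A).evS q) : pr c A' (Loc.lin (c.mp f) y) = Loc.lin f (pr c A y) := by
  obtain ⟨x, hx, rfl⟩ : ∃ x ∈ A.evS (m.φ q), c.tz A (ζ q) x = y :=
    ⟨pr c A y, h.pr_mem hy, h.tz_pr hy⟩
  rw [h.pr_tz hx, c.mp_tz f (ζ q) x fun i g hg => (h.key' (hx i g hg)).1]
  exact h.pr_tz (Loc.lin_mem f hx)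

/-- The isomorphism for one located module. -/
noncomputable def Adj.evI (A : Loc k P) :
    (Loc.ev.obj (c.ob A) : Fn k Q) ≅ (pb k m).obj (Loc.ev.obj A) :=
  NatIso.ofComponents (fun q => (h.eqv A q.unop.pt).toModuleIso) (by
    intro q q' f
    refine ModuleCat.hom_ext (LinearMap.ext fun y => Subtype.ext ?_)
    exact map_smul (pr c A) _ _)

/-- **Row EVC.** -/
noncomputable def evc : (c.F ⋙ Loc.ev : Loc k P ⥤ Fn k Q) ≅ Loc.ev ⋙ pb k m :=
  NatIso.ofComponents (fun A => h.evI A) (by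
    intro A A' f
    refine NatTrans.ext (funext fun q => ModuleCat.hom_ext (LinearMap.ext fun y =>
      Subtype.ext ?_))
    exact h.pr_nat f y.2)

end

end Pool.Agent.NegK.NT.EX78
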