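import Pool.Agent.Lib.MP_28303a_al.NT.EX.Defs
import Pool.Agent.Lib.MP_28303a_al.NT.EX78.Evc

/-! # Rows EVC and NAT -/

set_option autoImplicit false
set_option linter.unusedSectionVars false
set_option linter.unusedVariables false

namespace Pool.Agent.NegK.NT.EX78

universe u

open CategoryTheory Limits Opposite
open Pool.Agent.NegK.TW Pool.Agent.NegK.NT.ER Pool.Agent.NegK.NT.EX

/-- **Row NAT.** -/
theorem natS : NatStatement.{u} := fun k _ Γ _ B C _ _ P Q q => ⟨nat k q⟩

theorem adj_zm {Γ : Type u} [Group Γ] {T : Sys Γ} {j : Fin T.m} {Z : Type u} [MulAction Γ Z]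
    (l : Z → T.B j) (hl : ∀ (g : Γ) (z : Z), l (g • z) = g • l z) :
    Adj (cL l hl) (zm l hl) (fun q : Z × T.Box => q.1) where
  S {q b} h := by
    have h1 := h j (Finset.mem_univ j)
    show l q.1 ≤ b j
    have h2 : (zm l hl).φ q j = l q.1 := Function.update_self _ _ _
    rwa [h2] at h1
  le {q b} h := ⟨rfl, fun i hi => by
    have h1 := h i (Finset.mem_univ i)
    have h2 : (zm l hl).φ q i = q.2 i := Function.update_of_ne (Finset.ne_of_mem_erase hi) _ _
    rwa [h2] at h1⟩
  uniq {q b z} _ h := h.1.symm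
  inv {q b} h h' := fun i _ => by
    show Function.update q.2 j (l q.1) i ≤ b i
    by_cases hi : i = j
    · subst hi
      rw [Function.update_self]
      exact h
    · rw [Function.update_of_ne hi]
      exact h'.2 i (Finset.mem_erase.2 ⟨hi, Finset.mem_univ i⟩)

/-- **Row EVC.** -/
theorem evcS : EvcStatement.{u} := fun k _ Γ _ T j Z _ l hl =>
  ⟨(evc (k := k) (adj_zm l hl)).symm⟩

end Pool.Agent.NegK.NT.EX78
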